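import Pool.Agent.H24.Hru5

set_option autoImplicit false

namespace Pool.Agent.Results.MP_c0ccbe_al.Blocks

/-- the image of a finite set under a permutation -/
def img {X : Type} (g : Equiv.Perm X) (s : Finset X) : Finset X := s.map g.toEmbedding

theorem img_card {X : Type} {t : ℕ} (g : Equiv.Perm X) {s : Finset X} (hs : s.card = t) :
    (img g s).card = t := (Finset.card_map _).trans hs

/-- `G` is `k`-transitive: transitive on ordered `k`-tuples of distinct points -/
def TupleTransitive {X : Type} (k : ℕ) (G : Subgroup (Equiv.Perm X)) : Prop :=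
  ∀ a b : Fin k ↪ X, ∃ g ∈ G, ∀ i, g (a i) = b i

/-- `G` is `t`-set primitive: the induced action on the `t`-element subsets is transitive and
preserves no equivalence relation except equality and the all relation -/
def SetPrimitive {X : Type} (t : ℕ) (G : Subgroup (Equiv.Perm X)) : Prop :=
  (∀ s s' : Finset X, s.card = t → s'.card = t → ∃ g ∈ G, img g s = s') ∧
  ∀ r : Setoid {s : Finset X // s.card = t},
    (∀ g ∈ G, ∀ s s' : {s : Finset X // s.card = t}, r s s' →
      r ⟨img g s.1, img_card g s.2⟩ ⟨img g s'.1, img_card g s'.2⟩) → r = ⊥ ∨ r = ⊤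

/-- `S` is a block of imprimitivity of `G` on the `t`-element subsets -/
def IsBlock {X : Type} (t : ℕ) (G : Subgroup (Equiv.Perm X)) (S : Set (Finset X)) : Prop :=
  (∀ s ∈ S, s.card = t) ∧ S.Nontrivial ∧ S ≠ {s : Finset X | s.card = t} ∧
    ∀ g ∈ G, img g '' S = S ∨ Disjoint (img g '' S) S

/-- the members of `S` partition the point set -/
def IsPartition {X : Type} (S : Set (Finset X)) : Prop :=
  ∀ x : X, ∃! s : Finset X, s ∈ S ∧ x ∈ s

/-- There is a `4`-transitive group on a countably infinite set which is not `3`-set primitive and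
has a block of imprimitivity on the `3`-element subsets that is not a partition of the set. -/
theorem result : ∃ (X : Type) (G : Subgroup (Equiv.Perm X)), Infinite X ∧ Countable X ∧
    TupleTransitive (3 + 1) G ∧ ¬ SetPrimitive 3 G ∧
    ∃ S : Set (Finset X), IsBlock 3 G S ∧ ¬ IsPartition S := by
  classical
  let x0 : H24.Hru.X := H24.Hru.p0 0 (by decide)
  let x1 : H24.Hru.X := H24.Hru.p0 1 (by decide)
  let x2 : H24.Hru.X := H24.Hru.p0 2 (by decide)
  let x3 : H24.Hru.X := H24.Hru.p0 3 (by decide)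
  let x4 : H24.Hru.X := H24.Hru.p0 4 (by decide)
  let s1 : Finset H24.Hru.X := {x0, x1, x2}
  let s2 : Finset H24.Hru.X := {x0, x3, x4}
  let s3 : Finset H24.Hru.X := {x0, x1, x3}
  have u1 : H24.Hru.und s1 = {(0, true), (1, true), (2, true)} := by
    simp [H24.Hru.und, s1, x0, x1, x2, H24.Hru.p0, Finset.image_insert]
  have u2 : H24.Hru.und s2 = {(0, true), (3, true), (4, true)} := by
    simp [H24.Hru.und, s2, x0, x3, x4, H24.Hru.p0, Finset.image_insert]
  have u3 : H24.Hru.und s3 = {(0, true), (1, true), (3, true)} := by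
    simp [H24.Hru.und, s3, x0, x1, x3, H24.Hru.p0, Finset.image_insert]
  have k1 : s1.card = 3 := by
    rw [← H24.Hru.und_card, u1]; decide
  have k2 : s2.card = 3 := by
    rw [← H24.Hru.und_card, u2]; decide
  have k3 : s3.card = 3 := by
    rw [← H24.Hru.und_card, u3]; decide
  have m1 : H24.Hru.Col (0, false) s1 := by
    refine ⟨rfl, 0, ?_⟩
    rw [u1]
    change _ ∈ H24.Hru.c0.R
    decide
  have m2 : H24.Hru.Col (0, false) s2 := by
    refine ⟨rfl, 0, ?_⟩
    rw [u2]
    change _ ∈ H24.Hru.c0.R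
    decide
  have m3 : ¬ H24.Hru.Col (0, false) s3 := by
    intro h
    have h1 := H24.Hru.RU_few m1.2 h.2 (by rw [u1, u3]; decide)
    rw [u1, u3] at h1
    revert h1
    decide
  have hne : s1 ≠ s2 := by
    intro h
    have : H24.Hru.und s1 = H24.Hru.und s2 := by rw [h]
    rw [u1, u2] at this
    revert this
    decide
  refine ⟨H24.Hru.X, H24.Hru.Gp, H24.Hru.X_infinite, inferInstance, H24.Hru.trans4, ?_,
    H24.Hru.Blk, ⟨fun s hs => hs.1, ⟨s1, ⟨k1, m1⟩, s2, ⟨k2, m2⟩, hne⟩, ?_,
      H24.Hru.blk_block⟩, ?_⟩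
  · rintro ⟨_, h⟩
    let r : Setoid {s : Finset H24.Hru.X // s.card = 3} :=
      { r := fun s t => H24.Hru.SC s.1 t.1
        iseqv := by
          refine ⟨?_, ?_, ?_⟩
          · intro s
            obtain ⟨k, hk⟩ := H24.Hru.col_exists s.2
            exact ⟨k, hk, hk⟩
          · rintro s t ⟨k, h1, h2⟩
            exact ⟨k, h2, h1⟩
          · rintro s t u ⟨k, h1, h2⟩ ⟨l, h3, h4⟩
            have := H24.Hru.col_unique t.2 h2 h3
            subst this
            exact ⟨k, h1, h4⟩ }
    rcases h r (fun g hg s s' hss => (H24.Hru.mem_Gp.1 hg s.1 s'.1 s.2 s'.2).2 hss) with h | h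
    · have h1 : r ⟨s1, k1⟩ ⟨s2, k2⟩ := ⟨_, m1, m2⟩
      rw [h] at h1
      have h2 : (⟨s1, k1⟩ : {s : Finset H24.Hru.X // s.card = 3}) = ⟨s2, k2⟩ := h1
      exact hne (congrArg Subtype.val h2)
    · have h1 : r ⟨s1, k1⟩ ⟨s3, k3⟩ := by
        rw [h]
        trivial
      obtain ⟨k, h2, h3⟩ := h1
      have := H24.Hru.col_unique k1 h2 m1
      rw [this] at h3
      exact m3 h3
  · intro h
    have : s3 ∈ H24.Hru.Blk := by
      rw [h]
      exact k3
    exact m3 this.2
  · intro h
    obtain ⟨s, _, hu⟩ := h x0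
    have h1 := hu s1 ⟨⟨k1, m1⟩, by simp [s1]⟩
    have h2 := hu s2 ⟨⟨k2, m2⟩, by simp [s2]⟩
    exact hne (h1.trans h2.symm)

end Pool.Agent.Results.MP_c0ccbe_al.Blocks
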